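import Mathlib
import Pool.Agent.MP_de770b_mp.Construct

/-!
# Vee-systems are determined by their matroid, their nu-function and the cross-ratios in planes

Let `A = {α i}` and `B = {β i}` be irreducible vee-systems of dimension at least three such that
`α i ↦ β i` is an isomorphism of matroids matching the nu-functions.  If every plane with more than
three covectors of `A` lies in an irreducible subsystem on which the bijection is induced by a
linear map up to scalars (for instance, if the cross-ratios in every such plane agree, or if the
bijection is projective on the three-dimensional subsystems), then the bijection is induced by a
linear map up to signs.  The hypothesis is empty if every plane contains at most three covectors.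
It holds for every `B` if every plane with more than three covectors lies in an irreducible
subsystem that can be constructed from a frame by intersecting planes; in that case the real
realisation of the matroid is projectively unique.

Idea of the proof.  On an irreducible subsystem the form is a multiple of the form of the whole
system, and the rescaling of a projective realisation to a tight frame with given norms is unique,
so that the absolute values of all scalar products agree (in a plane with three covectors they are
determined by the norms).  Equality of the absolute values implies equality up to switching: a
shortest closed walk of nonorthogonal covectors along which the product of the signs is wrong can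
be shortened with the help of a third covector in the plane of two consecutive ones.
-/

namespace Pool.Agent.Results.MP_de770b_mp.LocalToGlobal

open Module Submodule Pool.Agent.MP_de770b_mp

theorem result {ι : Type*} [Fintype ι] {V : Type*} [AddCommGroup V] [Module ℝ V]
    [FiniteDimensional ℝ V] (hn : 3 ≤ finrank ℝ V)
    (α : ι → Dual ℝ V) (hα : IsVeeSystem α) (hirr : IsIrreducible α) :
    (∀ β : ι → Dual ℝ V, IsVeeSystem β → SameMatroid α β → SameNu α β →
      (∀ i j, i ≠ j → 4 ≤ (fl α i j).card → ∃ X : Finset ι, i ∈ X ∧ j ∈ X ∧
        LineClosed α X ∧ IrredOn α X ∧ ProjEquivOn α β X) → SignEquiv α β) ∧
    (LocallyConstructible α →
      (∀ β : ι → Dual ℝ V, IsVeeSystem β → SameMatroid α β → SameNu α β → SignEquiv α β) ∧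
      (∀ β : ι → Dual ℝ V, SameMatroid α β → ProjEquiv α β)) :=
  ⟨fun _ hβ hm hnu hloc => local_to_global hn hα hirr hβ hm hnu hloc,
    fun hcon => ⟨fun _ hβ hm hnu => signEquiv_of_constructible hn hα hirr hcon hβ hm hnu,
      fun _ hm => projEquiv_of_constructible hn hα hirr hcon hm⟩⟩

end Pool.Agent.Results.MP_de770b_mp.LocalToGlobal
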