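import Mathlib
import Pool.Agent.VeeC.FlatC

/-!
# Vee-systems are determined by their oriented matroid and their nu-function

Let `A = {α i}` be an irreducible vee-system of dimension at least three. Every family of covectors
with the same oriented matroid, that is, with the same set of sign vectors of points, is obtained
from `A` by a linear map and positive factors; it is `g(A)`, with the right signs, if it is a
vee-system with the same nu-function. The question for `A` (up to signs) is equivalent to the
uniqueness of the orientation of its matroid, up to reorientation and automorphisms preserving the
norms.

Idea of the proof. The norms agree, so it remains to compare angles in three-dimensional flats.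
There the arrangement of great circles is simplicial and all angles are at most `π/2`; at a point
where at least three great circles meet, the normals satisfy `∑ u_k ^ 2 = 0` in the complex plane, so
that two realisations with different angles there differ in at least eight changes of sign (Cauchy's
lemma). The sides of a spherical triangle with angles at most `π/2` are monotone functions of the
angles. Counting the changes with the help of Euler's inequality for the graph of the vertices with
changing angles, and of the components of its complement, gives a contradiction.
-/

namespace Pool.Agent.Results.MP_de770b_mp.OrientedRigidity

open Module Submodule Pool.Agent.MP_de770b_mp Pool.Agent.VeeC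

theorem result {ι : Type*} [Fintype ι] {V : Type*} [AddCommGroup V] [Module ℝ V]
    [FiniteDimensional ℝ V] (hn : 3 ≤ finrank ℝ V)
    (α : ι → Dual ℝ V) (hα : IsVeeSystem α) (hirr : IsIrreducible α) :
    (∀ β : ι → Dual ℝ V, SameOriented α β →
      ∃ (g : Dual ℝ V ≃ₗ[ℝ] Dual ℝ V) (c : ι → ℝ), (∀ i, 0 < c i) ∧ ∀ i, β i = c i • g (α i)) ∧
    (∀ β : ι → Dual ℝ V, IsVeeSystem β → SameOriented α β → SameNu α β → GLEquiv α β) ∧
    (DeterminedByNu α ↔ UniqueOrientation α) := by
  classical
  exact ⟨fun β h => rescale_of_sameOriented hn hα hirr h,
    fun β hβ h hnu => glEquiv_of_sameOriented hn hα hirr hβ h hnu,
    determined_iff_orientation hn hα hirr⟩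

end Pool.Agent.Results.MP_de770b_mp.OrientedRigidity
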