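import Mathlib
import Pool.Agent.MP_de770b_mp.Reindex

/-!
# Vee-systems and the real realisations of their matroids

A numerical criterion for a family of covectors to be rescalable to an irreducible vee-system, which
involves only the matroid, and its consequences for the question: every real realisation of the
matroid of an irreducible vee-system of dimension at least three can be rescaled to a vee-system
with the same nu-function; there are only finitely many such realisations up to projective
equivalence; and the question (up to signs) for the vee-system is equivalent to the uniqueness of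
the realisation up to the automorphisms of the matroid preserving the norms.

Idea of the proof.  For a family normalised to a tight frame with norms `r_i`, the trace of the
square of the Gram matrix is the dimension `n`; it is also the sum of the contributions of the
planes, and the contribution of a plane `v` is at least `r(v)^2/2`, with equality if and only if the
operator of the plane is scalar (and a plane with two covectors contributes at least `0` outside the
diagonal, with equality if and only if they are orthogonal).  The linear system says that the sum of
the lower bounds is `n`.  A tight frame with norms `r_i` exists in every projective class because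
`r` lies in the interior of the matroid polytope: minimise `log det` of the weighted frame operator.
-/

namespace Pool.Agent.Results.MP_de770b_mp.RealisationsRescale

open Module Submodule Pool.Agent.MP_de770b_mp

theorem result {ι : Type*} [Fintype ι] [DecidableEq ι] {V : Type*} [AddCommGroup V] [Module ℝ V]
    [FiniteDimensional ℝ V] (hn : 3 ≤ finrank ℝ V) :
    -- the numerical criterion
    (∀ x : ι → Dual ℝ V, span ℝ (Set.range x) = ⊤ → (∀ i, x i ≠ 0) →
      (∀ i j, i ≠ j → LinearIndependent ℝ ![x i, x j]) → ∀ r : ι → ℝ,
      ((IsIrreducible x ∧ ∃ t : ι → ℝ, (∀ i, 0 < t i) ∧ IsVeeSystem (fun i => t i • x i) ∧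
          ∀ i, normSq (fun i => t i • x i) i = r i) ↔
        (∑ i, r i = finrank ℝ V ∧
          (∀ I : Finset ι, I.Nonempty → I ≠ Finset.univ →
            ∑ i ∈ I, r i < finrank ℝ (span ℝ (x '' (I : Set ι)))) ∧
          ∀ i, ∑ v ∈ Sys.flatsAt x i, ((∑ k ∈ v, r k) / 2 - r i) = 1 - r i))) ∧
    -- consequences for an irreducible vee-system
    (∀ α : ι → Dual ℝ V, IsVeeSystem α → IsIrreducible α →
      (∀ β : ι → Dual ℝ V, SameMatroid α β → ∃ t : ι → ℝ, (∀ i, 0 < t i) ∧
        IsVeeSystem (fun i => t i • β i) ∧ SameNu α (fun i => t i • β i)) ∧
      (∃ S : Set (ι → Dual ℝ V), S.Finite ∧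
        ∀ β, SameMatroid α β → ∃ δ ∈ S, ProjEquiv δ β) ∧
      (DeterminedByNu α ↔ UniqueRealisation α)) := by
  refine ⟨fun x hs h0 hli r => ?_, fun α hα hirr => ⟨fun β hm => ?_, ?_, ?_⟩⟩
  · rw [criterion hn x hs hli h0 r]
    exact ⟨fun h => ⟨h.sum_eq, h.lt_rank, h.linSys⟩, fun h => ⟨h.1, h.2.1, h.2.2⟩⟩
  · obtain ⟨t, ht, hv, hnu, -⟩ := realisation_rescales hn hα hirr hm
    exact ⟨t, ht, hv, hnu⟩
  · exact finite_realisations hn hα hirr
  · exact determined_iff hn hα hirr

end Pool.Agent.Results.MP_de770b_mp.RealisationsRescale
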