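import Mathlib
import Pool.Agent.MP_de770b_mp.Main

/-!
# Rigidity and finiteness for vee-systems with given matroid and nu-function

For an irreducible vee-system `A` of dimension at least three, only finitely many `GL(V^*)`-classes
of vee-systems have the (labelled) matroid and the nu-function of `A`, and every such vee-system
close to `A` is `GL(V^*)`-equivalent to `A` (the local version of the question).

Idea of the proof.  Normalise by the form `G_A`; a vee-system is then encoded by its Gram matrix
`K`, a projection.  The matroid and `nu` determine the diagonal of `K` (the norms).  For a tangent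
vector `H` put `C = K H`; then `C * C = 0`, and splitting `trace (C * C) = 0` over the rank two
flats gives a sum of nonpositive terms, so that all of them vanish.  This forces every plane in
which some covector moves to contain at least four moving covectors, and Kelly's minimal distance
argument excludes this.  So the solution scheme is reduced and zero-dimensional at every
vee-system, hence the number of solutions is finite (minimal primes of a noetherian ring).
-/

namespace Pool.Agent.Results.MP_de770b_mp.RigidityFiniteness

open Module Submodule Pool.Agent.MP_de770b_mp

theorem result {ι : Type*} [Fintype ι] {V : Type*} [AddCommGroup V] [Module ℝ V]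
    [FiniteDimensional ℝ V] (hn : 3 ≤ finrank ℝ V)
    (α : ι → Dual ℝ V) (hα : IsVeeSystem α) (hirr : IsIrreducible α) :
    (∃ S : Set (ι → Dual ℝ V), S.Finite ∧
      ∀ β : ι → Dual ℝ V, IsVeeSystem β → SameMatroid α β → SameNu α β →
        ∃ γ ∈ S, GLEquiv γ β) ∧
    (∀ {κ : Type*} (b : Basis κ ℝ V), ∃ ε > 0,
      ∀ β : ι → Dual ℝ V, IsVeeSystem β → SameMatroid α β → SameNu α β →
        (∀ i k, |β i (b k) - α i (b k)| < ε) → GLEquiv α β) := by
  refine ⟨?_, fun b => local_unique α hα hirr hn b⟩
  obtain ⟨S, -, hfin, hS⟩ := finite_classes α hα hirr hn
  exact ⟨S, hfin, fun β h1 h2 h3 => hS β ⟨h1, h2, h3⟩⟩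

end Pool.Agent.Results.MP_de770b_mp.RigidityFiniteness
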